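import Pool.Agent.L7h17.OC.Stm

set_option autoImplicit false

/-!
# Project OC, part PH: a continuous argument of `β + α τ²` on an interval without zero
-/

namespace Pool.Agent.L7h93.OC

open Pool.Agent.L7h17.OC

theorem s_PH : S_PH := by
  intro α β u v hu huv hβ hne
  obtain ⟨γ, hγ⟩ : ∃ γ : ℂ, γ = α / β := ⟨_, rfl⟩
  have hfac : ∀ τ : ℝ, β + α * (τ : ℂ) ^ 2 = β * (1 + γ * (τ : ℂ) ^ 2) := by
    intro τ
    rw [hγ]
    field_simp
  have hw : ∀ τ : ℝ, 0 ≤ τ → u ≤ τ ^ 2 → τ ^ 2 ≤ v → 1 + γ * (τ : ℂ) ^ 2 ≠ 0 := by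
    intro τ h1 h2 h3 h4
    exact hne τ h1 h2 h3 (by rw [hfac, h4, mul_zero])
  have hre : ∀ τ : ℝ, (1 + γ * (τ : ℂ) ^ 2).re = 1 + γ.re * τ ^ 2 := by
    intro τ
    rw [← Complex.ofReal_pow, Complex.add_re, Complex.mul_re, Complex.ofReal_re, Complex.ofReal_im,
      Complex.one_re]
    ring
  have him : ∀ τ : ℝ, (1 + γ * (τ : ℂ) ^ 2).im = γ.im * τ ^ 2 := by
    intro τ
    rw [← Complex.ofReal_pow, Complex.add_im, Complex.mul_im, Complex.ofReal_re, Complex.ofReal_im,
      Complex.one_im]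
    ring
  by_cases hslit : ∀ τ : ℝ, 0 ≤ τ → u ≤ τ ^ 2 → τ ^ 2 ≤ v →
      1 + γ * (τ : ℂ) ^ 2 ∈ Complex.slitPlane
  · refine ⟨fun τ => Complex.arg β + Complex.arg (1 + γ * (τ : ℂ) ^ 2), ?_, ?_⟩
    · intro τ hτ
      have h1 := hslit τ hτ.1 hτ.2.1 hτ.2.2
      apply ContinuousAt.continuousWithinAt
      refine continuousAt_const.add ?_
      exact ContinuousAt.comp (f := fun τ : ℝ => 1 + γ * (τ : ℂ) ^ 2)
        (Complex.continuousAt_arg h1) (by fun_prop)
    · intro τ h1 h2 h3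
      have e1 := Complex.norm_mul_exp_arg_mul_I β
      have e2 := Complex.norm_mul_exp_arg_mul_I (1 + γ * (τ : ℂ) ^ 2)
      rw [hfac, norm_mul]
      push_cast
      rw [add_mul, Complex.exp_add]
      calc β * (1 + γ * (τ : ℂ) ^ 2)
          = ((‖β‖ : ℂ) * Complex.exp (Complex.arg β * Complex.I)) *
            ((‖1 + γ * (τ : ℂ) ^ 2‖ : ℂ) *
              Complex.exp (Complex.arg (1 + γ * (τ : ℂ) ^ 2) * Complex.I)) := by rw [e1, e2]
        _ = _ := by ring
  · push Not at hslit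
    obtain ⟨τ0, h1, h2, h3, h4⟩ := hslit
    rw [Complex.mem_slitPlane_iff, hre, him] at h4
    push Not at h4
    obtain ⟨h5, h6⟩ := h4
    have hτ0 : 0 < τ0 ^ 2 := by
      rcases (sq_nonneg τ0).lt_or_eq with h | h
      · exact h
      · rw [← h] at h5
        linarith
    have hb : γ.im = 0 := by
      rcases mul_eq_zero.1 h6 with h | h
      · exact h
      · exact absurd h hτ0.ne'
    have ha : γ.re < 0 := by
      by_contra h
      push Not at h
      nlinarith
    have hne0 : 1 + γ.re * τ0 ^ 2 ≠ 0 := by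
      intro h
      apply hw τ0 h1 h2 h3
      apply Complex.ext
      · rw [hre, h, Complex.zero_re]
      · rw [him, hb, zero_mul, Complex.zero_im]
    have hneg : ∀ τ : ℝ, 0 ≤ τ → u ≤ τ ^ 2 → τ ^ 2 ≤ v → 1 + γ.re * τ ^ 2 < 0 := by
      intro τ g1 g2 g3
      by_contra h
      push Not at h
      have hs0 : 0 ≤ -1 / γ.re := by
        rw [div_nonneg_iff]
        right
        exact ⟨by norm_num, ha.le⟩
      have hs1 : (Real.sqrt (-1 / γ.re)) ^ 2 = -1 / γ.re := Real.sq_sqrt hs0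
      have hs2 : τ ^ 2 ≤ -1 / γ.re := by
        rw [le_div_iff_of_neg ha]
        linarith
      have hs3 : -1 / γ.re ≤ τ0 ^ 2 := by
        rw [div_le_iff_of_neg ha]
        linarith
      apply hw (Real.sqrt (-1 / γ.re)) (Real.sqrt_nonneg _) (by rw [hs1]; linarith)
        (by rw [hs1]; linarith)
      have ha' : γ.re ≠ 0 := ha.ne
      have h9 : γ.re * (-1 / γ.re) = -1 := by
        field_simp
      apply Complex.ext
      · rw [hre, hs1, Complex.zero_re, h9]
        norm_num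
      · rw [him, hb, zero_mul, Complex.zero_im]
    refine ⟨fun _ => Complex.arg β + Real.pi, continuousOn_const, ?_⟩
    intro τ g1 g2 g3
    have g4 := hneg τ g1 g2 g3
    have g5 : 1 + γ * (τ : ℂ) ^ 2 = ((1 + γ.re * τ ^ 2 : ℝ) : ℂ) := by
      apply Complex.ext
      · rw [hre, Complex.ofReal_re]
      · rw [him, hb, zero_mul, Complex.ofReal_im]
    have e1 := Complex.norm_mul_exp_arg_mul_I β
    have e2 : Complex.exp (((Complex.arg β + Real.pi : ℝ) : ℂ) * Complex.I)
        = - Complex.exp (Complex.arg β * Complex.I) := by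
      rw [Complex.ofReal_add, add_mul, Complex.exp_add, Complex.exp_pi_mul_I]
      ring
    rw [hfac, norm_mul, g5, Complex.norm_real, Real.norm_eq_abs, abs_of_neg g4]
    show _ = _ * Complex.exp (((Complex.arg β + Real.pi : ℝ) : ℂ) * Complex.I)
    rw [e2]
    calc β * ((1 + γ.re * τ ^ 2 : ℝ) : ℂ)
        = ((‖β‖ : ℂ) * Complex.exp (Complex.arg β * Complex.I)) *
          ((1 + γ.re * τ ^ 2 : ℝ) : ℂ) := by rw [e1]
      _ = _ := by push_cast; ring

end Pool.Agent.L7h93.OC
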